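import Mathlib
import Pool.Agent.H588R3.TC.Word

set_option autoImplicit false

/-!
# From laws of step words to word laws of 2-dependent 3-colourings
-/

namespace Pool.Agent.W850.TD

open Pool.Agent.H588R3

/-- A symmetric step law: `p w` is the probability that the successive colour steps of the
colouring spell the word `w` (`true`: step `+1`, `false`: step `-1`). -/
structure StepLaw (p : List Bool → ℝ) : Prop where
  nonneg : ∀ w, 0 ≤ p w
  nil : p [] = 1
  left : ∀ w, p (true :: w) + p (false :: w) = p w
  right : ∀ w, p (w ++ [true]) + p (w ++ [false]) = p w
  e3 : ∀ u v, p (u ++ true :: true :: true :: v) + p (u ++ false :: false :: false :: v) =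
    p u * p v / 3
  e1 : ∀ u v, p (u ++ true :: true :: false :: v) + p (u ++ true :: false :: true :: v) +
    p (u ++ false :: true :: true :: v) = p u * p v / 3
  e2 : ∀ u v, p (u ++ false :: false :: true :: v) + p (u ++ false :: true :: false :: v) +
    p (u ++ true :: false :: false :: v) = p u * p v / 3

/-- Probability of the coloured word when `u` is the word of steps so far and `a` the current
colour. -/
noncomputable def A (p : List Bool → ℝ) : List Bool → Fin 3 → List (Fin 3) → ℝ
  | u, _, [] => p u / 3
  | u, a, b :: w => if b = a then 0 else A p (u ++ [decide (b = a + 1)]) b w

/-- The word law attached to a step law. -/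
noncomputable def P (p : List Bool → ℝ) : List (Fin 3) → ℝ
  | [] => 1
  | a :: w => A p [] a w

variable {p : List Bool → ℝ}

theorem A_nonneg (hp : ∀ w, 0 ≤ p w) (u : List Bool) (a : Fin 3) (w : List (Fin 3)) :
    0 ≤ A p u a w := by
  induction w generalizing u a with
  | nil => simp only [A]; linarith [hp u]
  | cons b w ih =>
    simp only [A]
    split_ifs
    · exact le_rfl
    · exact ih _ _

theorem A_pre (u : List Bool) (a : Fin 3) (x : List (Fin 3)) :
    (∀ z, A p u a (x ++ z) = 0) ∨ (∃ u' c, ∀ z, A p u a (x ++ z) = A p u' c z) := by
  induction x generalizing u a with
  | nil => exact Or.inr ⟨u, a, fun z => rfl⟩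
  | cons b x ih =>
    by_cases h : b = a
    · left
      intro z
      simp [A, h]
    · rcases ih (u ++ [decide (b = a + 1)]) b with h1 | ⟨u', c, h1⟩
      · left
        intro z
        simp only [List.cons_append, A, if_neg h]
        exact h1 z
      · right
        refine ⟨u', c, fun z => ?_⟩
        simp only [List.cons_append, A, if_neg h]
        exact h1 z

theorem A_suf (d : Fin 3) (y : List (Fin 3)) :
    (∀ u, A p u d y = 0) ∨ (∃ v, ∀ u, A p u d y = p (u ++ v) / 3) := by
  induction y generalizing d with
  | nil => exact Or.inr ⟨[], fun u => by simp [A]⟩
  | cons b y ih =>
    by_cases h : b = d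
    · left
      intro u
      simp [A, h]
    · rcases ih b with h1 | ⟨v, h1⟩
      · left
        intro u
        simp only [A, if_neg h]
        exact h1 _
      · right
        refine ⟨decide (b = d + 1) :: v, fun u => ?_⟩
        simp only [A, if_neg h]
        rw [h1]
        simp

theorem A_improper (u : List Bool) (a : Fin 3) (w : List (Fin 3)) (h : ¬ TC.Proper (a :: w)) :
    A p u a w = 0 := by
  induction w generalizing u a with
  | nil => exact absurd (by simp [TC.Proper]) h
  | cons b w ih =>
    simp only [A]
    split_ifs with hb
    · rfl
    · apply ih
      intro h'
      apply h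
      unfold TC.Proper at *
      rw [List.isChain_cons_cons]
      exact ⟨fun e => hb e.symm, h'⟩

theorem A_right (hp : StepLaw p) (u : List Bool) (a : Fin 3) :
    ∑ c, A p u a [c] = A p u a [] := by
  have h := hp.right u
  simp only [A]
  fin_cases a <;> simp [Fin.sum_univ_three] <;> linarith

theorem P_wlaw (hp : StepLaw p) : TC.WLaw (P p) where
  nonneg := by
    intro w
    cases w with
    | nil => simp [P]
    | cons a w => exact A_nonneg hp.nonneg _ _ _
  nil := rfl
  improper := by
    intro w hw
    cases w with
    | nil => exact absurd (by simp [TC.Proper]) hw
    | cons a w => exact A_improper _ _ _ hw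
  left := by
    intro w
    cases w with
    | nil =>
      simp only [P, A, hp.nil, Fin.sum_univ_three]
      norm_num
    | cons d y =>
      simp only [P, A]
      rcases A_suf (p := p) d y with h | ⟨v, h⟩
      · simp only [h]
        simp
      · simp only [h]
        have h1 := hp.left v
        fin_cases d <;> simp [Fin.sum_univ_three] <;> linarith
  right := by
    intro w
    cases w with
    | nil =>
      simp only [P, A, hp.nil, Fin.sum_univ_three, List.nil_append]
      norm_num
    | cons a w =>
      simp only [List.cons_append, P]
      rcases A_pre (p := p) [] a w with h | ⟨u', c, h⟩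
      · have h0 := h []
        rw [List.append_nil] at h0
        simp only [h, h0]
        simp
      · have h0 := h []
        rw [List.append_nil] at h0
        simp only [h, h0]
        exact A_right hp _ _
  mid := by
    have hleft : ∀ w, ∑ a, P p (a :: w) = P p w := by
      intro w
      cases w with
      | nil =>
        simp only [P, A, hp.nil, Fin.sum_univ_three]
        norm_num
      | cons d y =>
        simp only [P, A]
        rcases A_suf (p := p) d y with h | ⟨v, h⟩
        · simp only [h]
          simp
        · simp only [h]
          have h1 := hp.left v
          fin_cases d <;> simp [Fin.sum_univ_three] <;> linarith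
    intro x y
    cases x with
    | nil =>
      simp only [List.nil_append]
      rw [Finset.sum_comm]
      simp only [hleft]
      simp [P]
    | cons a x =>
      simp only [List.cons_append, P]
      rcases A_pre (p := p) [] a x with h | ⟨u, c, h⟩
      · have h0 := h []
        rw [List.append_nil] at h0
        simp only [h, h0]
        simp
      · have h0 := h []
        rw [List.append_nil] at h0
        simp only [h, h0]
        cases y with
        | nil =>
          simp only [P, mul_one]
          have h2 : ∀ a1 : Fin 3, ∑ b, A p u c [a1, b] = A p u c [a1] := by
            intro a1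
            by_cases h3 : a1 = c
            · simp [A, h3]
            · simp only [A, if_neg h3]
              have := A_right hp (u ++ [decide (a1 = c + 1)]) a1
              simpa only [A] using this
          simp only [h2]
          exact A_right hp _ _
        | cons d y =>
          simp only [P, A]
          rcases A_suf (p := p) d y with h4 | ⟨v, h4⟩
          · simp only [h4]
            simp
          · simp only [h4]
            have e1 := hp.e1 u v
            have e2 := hp.e2 u v
            have e3 := hp.e3 u v
            fin_cases c <;> fin_cases d <;> simp [Fin.sum_univ_three] <;> linarith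

end Pool.Agent.W850.TD
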