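import Mathlib
import Pool.Agent.W850.TD.Bridge
import Pool.Agent.H588R3.TC.Space
import Pool.Agent.H588R3.BR.Theta4

set_option autoImplicit false

/-!
# A step law different from the Holroyd-Liggett one settles both uniqueness questions
-/

namespace Pool.Agent.W850.TD

open MeasureTheory ProbabilityTheory Pool.Agent.H588R3

theorem hl_010 : TC.hl [0, 1, 0] = 1 / 15 := by
  unfold TC.hl
  simp [TC.hlAux, TC.sdel, TC.Proper]
  norm_num

variable {p : List Bool → ℝ}

theorem P_010 : P p [0, 1, 0] = p [true, false] / 3 := by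
  simp [P, A]

/-- The measure on 3-colourings attached to a step law. -/
noncomputable def law3 (hp : StepLaw p) : TC.Laws := TC.lawHomeo.symm ⟨P p, P_wlaw hp⟩

/-- The Holroyd-Liggett law. -/
noncomputable def HL3 : TC.Laws := TC.lawHomeo.symm TC.hlW

theorem law3_ne (hp : StepLaw p) (h : p [true, false] ≠ 1 / 5) : law3 hp ≠ HL3 := by
  intro h'
  have h1 := TC.lawHomeo.symm.injective h'
  have h2 : P p [0, 1, 0] = TC.hl [0, 1, 0] := by
    have := congrArg (fun Q : TC.WSpace => Q.1 [0, 1, 0]) h1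
    exact this
  rw [P_010, hl_010] at h2
  apply h
  linarith

/-- A second step law disproves uniqueness of the stationary 2-dependent 3-colouring. -/
theorem three (hp : StepLaw p) (h : p [true, false] ≠ 1 / 5) :
    ¬ (∀ μ ν : Measure (ℤ → Fin 3),
    IsProbabilityMeasure μ → IsProbabilityMeasure ν →
    μ.map (fun (x : ℤ → Fin 3) (n : ℤ) => x (n + 1)) = μ →
    ν.map (fun (x : ℤ → Fin 3) (n : ℤ) => x (n + 1)) = ν →
    (∀ᵐ x ∂μ, ∀ n : ℤ, x n ≠ x (n + 1)) →
    (∀ᵐ x ∂ν, ∀ n : ℤ, x n ≠ x (n + 1)) →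
    (∀ A B : Set ℤ, (∀ a ∈ A, ∀ b ∈ B, (2 : ℤ) < |a - b|) →
      IndepFun (fun (x : ℤ → Fin 3) (a : A) => x a)
        (fun (x : ℤ → Fin 3) (b : B) => x b) μ) →
    (∀ A B : Set ℤ, (∀ a ∈ A, ∀ b ∈ B, (2 : ℤ) < |a - b|) →
      IndepFun (fun (x : ℤ → Fin 3) (a : A) => x a)
        (fun (x : ℤ → Fin 3) (b : B) => x b) ν) →
    μ = ν) := by
  intro H
  have l1 : TC.IsColoringLaw ((law3 hp).1 : Measure (ℤ → Fin 3)) := (law3 hp).2
  have l2 : TC.IsColoringLaw (HL3.1 : Measure (ℤ → Fin 3)) := HL3.2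
  have := H _ _ l1.prob l2.prob l1.stationary l2.stationary l1.coloring l2.coloring
    l1.dependence l2.dependence
  apply law3_ne hp h
  apply Subtype.ext
  apply Subtype.ext
  exact this

/-- A second step law disproves uniqueness of the stationary 1-dependent 4-colouring. -/
theorem four (hp : StepLaw p) (h : p [true, false] ≠ 1 / 5) :
    ¬ (∀ μ ν : Measure (ℤ → Fin 4),
      IsProbabilityMeasure μ → IsProbabilityMeasure ν →
      Measure.map (fun x : ℤ → Fin 4 => fun n : ℤ => x (n + 1)) μ = μ →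
      Measure.map (fun x : ℤ → Fin 4 => fun n : ℤ => x (n + 1)) ν = ν →
      (∀ᵐ x ∂μ, ∀ n : ℤ, x n ≠ x (n + 1)) →
      (∀ᵐ x ∂ν, ∀ n : ℤ, x n ≠ x (n + 1)) →
      (∀ A B : Set ℤ, (∀ a ∈ A, ∀ b ∈ B, 1 < |a - b|) →
        Indep (⨆ a ∈ A, MeasurableSpace.comap (fun x : ℤ → Fin 4 => x a) (⊤ : MeasurableSpace (Fin 4)))
          (⨆ b ∈ B, MeasurableSpace.comap (fun x : ℤ → Fin 4 => x b) (⊤ : MeasurableSpace (Fin 4))) μ) →
      (∀ A B : Set ℤ, (∀ a ∈ A, ∀ b ∈ B, 1 < |a - b|) →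
        Indep (⨆ a ∈ A, MeasurableSpace.comap (fun x : ℤ → Fin 4 => x a) (⊤ : MeasurableSpace (Fin 4)))
          (⨆ b ∈ B, MeasurableSpace.comap (fun x : ℤ → Fin 4 => x b) (⊤ : MeasurableSpace (Fin 4))) ν) →
      μ = ν) := by
  intro H
  have l1 : FC.IsColoringLaw (((BR.lawsHomeo 0).symm (law3 hp)).1 : Measure (ℤ → Fin 4)) :=
    ((BR.lawsHomeo 0).symm (law3 hp)).2
  have l2 : FC.IsColoringLaw (((BR.lawsHomeo 0).symm HL3).1 : Measure (ℤ → Fin 4)) :=
    ((BR.lawsHomeo 0).symm HL3).2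
  have := H _ _ l1.prob l2.prob l1.stationary l2.stationary l1.coloring l2.coloring
    l1.dependence l2.dependence
  apply law3_ne hp h
  apply (BR.lawsHomeo 0).symm.injective
  apply Subtype.ext
  apply Subtype.ext
  exact this

end Pool.Agent.W850.TD
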